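import Pool.Agent.W877.Sq.Final

/-!
# Square sequences of width `< κ` and simultaneous reflection

Q1 has a positive answer in ZFC: if `κ < λ` are uncountable cardinals, `λ` is regular and
`□(λ, < κ)` holds, then `Refl(< κ, S)` fails for every stationary `S ⊆ λ`.

Outline.  Let `C` be a coherent sequence of width `< κ` and suppose `Refl(< κ, S)`.  Shrink `S` so
that `|C_β| = μ < κ` for all `β ∈ S` and put `ν = max μ ℵ₀ < κ`, so `ν⁺ < λ`.
For `a < λ` and a club `c` let `F a c` be the initial segment of `c` through its first element
above `a`; choose `c_γ ∈ C_γ`.  Call a family `Y` of such initial segments null if for some family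
of at most `ν` stationary subsets of `S` no `γ` with `F a c_γ ∈ Y` reflects all of them.  This is a
proper ideal; coherence and `|C_β| ≤ ν` on `S` show that it is `λ`-complete and has no `ν⁺`
disjoint positive sets.  If some positive singleton exists for every `a`, these singletons form a
tree of height `λ` with levels of size at most `ν`, `ν⁺ < λ`, which has a branch, and the branch is
a thread.  Otherwise, a least unbounded function turns the ideal into a normal one on `λ`, and
again at most `ν`, and at least one, initial segments `F a c_ξ` are positive for every `a`.
-/

set_option autoImplicit false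

universe u

open Cardinal

namespace Pool.Agent.Results.MP_c650be_lc.SimultaneousReflectionFails

open Pool.Agent.W877.Sq

theorem result (kappa lam : Cardinal.{u}) (hkappa : ℵ₀ < kappa) (hlt : kappa < lam)
    (hreg : lam.IsRegular) (hsq : SquareLt lam kappa) (S : Set Ordinal.{u})
    (hS : IsStationaryIn S lam.ord) : ¬ ReflLt lam kappa S := by
  obtain ⟨C, hC, hno⟩ := hsq
  intro hR
  exact hno (thread_of_refl hkappa hlt hreg hC hS hR)

end Pool.Agent.Results.MP_c650be_lc.SimultaneousReflectionFails
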